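import Pool.Agent.H334R2.CM.Defs
import Pool.Agent.H334R2.CM.S.LIFT
import Pool.Agent.H334R2.CM.S.PSLB

/-!
# Klein's representation of `PSL(2,7)` over the field with 11 elements

Task ORB of the project CM: the orbits of `PSL(2,7)` on the nonzero vectors of the natural and of
the dual module are five orbits with stabiliser `C4`, five with stabiliser `C3` and five regular
orbits.  The orbits are found by a table (a shortest path to a representative for every vector);
the rest follows by counting.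
-/

set_option autoImplicit false
open scoped Matrix MatrixGroups
universe u
namespace CM
namespace ORB

/-- the image of `n 1` -/
def NS : SL(3, ZMod 11) := ⟨!![2,0,2;6,8,5;6,3,5], by decide +kernel⟩
/-- the image of `d 2` -/
def DS : SL(3, ZMod 11) := ⟨!![0,1,0;0,0,1;1,0,0], by decide +kernel⟩
/-- the image of `w` -/
def WS : SL(3, ZMod 11) := ⟨!![0,10,0;10,0,0;0,0,10], by decide +kernel⟩

lemma NS7 : NS ^ 7 = 1 := by decide +kernel
lemma WS2 : WS * WS = 1 := by decide +kernel

/-- the exponent of `DS` in the image of `d a` -/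
def lk : ZMod 7 → ℕ := ![0,0,1,2,2,1,0]

lemma rel_hn (x y : ZMod 7) : NS ^ (x + y).val = NS ^ x.val * NS ^ y.val := by
  rw [← pow_add, ZMod.val_add]
  conv_rhs => rw [← Nat.mod_add_div (x.val + y.val) 7, pow_add, pow_mul, NS7, one_pow, mul_one]

lemma rel_hd : ∀ a b : ZMod 7, a ≠ 0 → b ≠ 0 → DS ^ lk (a * b) = DS ^ lk a * DS ^ lk b := by
  decide +kernel

lemma rel_neg : DS ^ lk (-1) = 1 := by decide +kernel

/-- the unit 2 modulo 7 -/
def u2 : (ZMod 7)ˣ := ⟨2, 4, by decide, by decide⟩

lemma rel_dn : ∀ a x : ZMod 7, a ≠ 0 →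
    DS ^ lk a * NS ^ x.val = NS ^ (a ^ 2 * x).val * DS ^ lk a := by
  decide +kernel

lemma rel_wd : ∀ a b : ZMod 7, a * b = 1 → WS * DS ^ lk a = DS ^ lk b * WS := by
  decide +kernel

lemma rel_wnw : ∀ a b : ZMod 7, a * b = 1 →
    WS * NS ^ a.val * WS = NS ^ (-b).val * WS * DS ^ lk a * NS ^ (-b).val := by
  decide +kernel

lemma ord4 : (NS ^ 2 * WS * NS) ^ 2 ≠ 1 ∧ (NS ^ 2 * WS * NS) ^ 4 = 1 := by decide +kernel
lemma ord3 : (WS * NS) ≠ 1 ∧ (WS * NS) ^ 3 = 1 := by decide +kernel

/-- counting lemma: if the orbits of fifteen points cover a set with 1330 elements and the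
stabilisers are at least as large as expected, everything is exact -/
theorem od_of {K X : Type} [Group K] [Finite K] (a : K →* Equiv.Perm X) (Y : Set X)
    (hinv : ∀ g, ∀ x ∈ Y, a g x ∈ Y) (hK : Nat.card K = 168) (hY : Nat.card Y = 1330)
    (r : Fin 3 → Fin 5 → X) (hr : ∀ j i, r j i ∈ Y) (u : Fin 3 → K)
    (hu : ∀ j i, a (u j) (r j i) = r j i)
    (ho : ∀ j, (![4, 3, 1] : Fin 3 → ℕ) j ∣ orderOf (u j))
    (cover : ∀ x ∈ Y, ∃ g j i, a g (r j i) = x) : Nonempty (OD a Y (Fin 5)) := by
  classical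
  have hYf : Finite Y := by
    apply Nat.finite_of_card_ne_zero
    rw [hY]; norm_num
  have hz : ∀ j i, ∀ h ∈ Subgroup.zpowers (u j), a h (r j i) = r j i := by
    intro j i h hh
    obtain ⟨m, rfl⟩ := Subgroup.mem_zpowers_iff.1 hh
    have : (u j) ^ m ∈ (MulAction.stabilizer (Equiv.Perm X) (r j i)).comap a := by
      apply Subgroup.zpow_mem
      rw [Subgroup.mem_comap, MulAction.mem_stabilizer_iff]
      exact hu j i
    rw [Subgroup.mem_comap, MulAction.mem_stabilizer_iff] at this
    exact this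
  have hcard : ∀ j, Nat.card (K ⧸ Subgroup.zpowers (u j)) * orderOf (u j) = 168 := by
    intro j
    rw [← hK, Subgroup.card_eq_card_quotient_mul_card_subgroup (Subgroup.zpowers (u j)),
      Nat.card_zpowers]
  have hle : ∀ j, Nat.card (K ⧸ Subgroup.zpowers (u j)) ≤ (![42, 56, 168] : Fin 3 → ℕ) j := by
    intro j
    have h1 := hcard j
    have h2 : (![4, 3, 1] : Fin 3 → ℕ) j ≤ orderOf (u j) := Nat.le_of_dvd (orderOf_pos _) (ho j)
    have h3 := Nat.mul_le_mul_left (Nat.card (K ⧸ Subgroup.zpowers (u j))) h2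
    rw [h1] at h3
    fin_cases j <;> simp at h3 ⊢ <;> omega
  let S := Σ ji : Fin 3 × Fin 5, K ⧸ Subgroup.zpowers (u ji.1)
  let Φ : S → Y := fun s => Quotient.liftOn' s.2
    (fun g => (⟨a g (r s.1.1 s.1.2), hinv g _ (hr _ _)⟩ : Y)) (by
      intro g g' hgg
      rw [QuotientGroup.leftRel_apply] at hgg
      have h1 := hz s.1.1 s.1.2 _ hgg
      ext1
      change a g (r s.1.1 s.1.2) = a g' (r s.1.1 s.1.2)
      have h2 : a g' (r s.1.1 s.1.2) = a g (a (g⁻¹ * g') (r s.1.1 s.1.2)) := by
        rw [← Equiv.Perm.mul_apply, ← map_mul, mul_inv_cancel_left]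
      rw [h2, h1])
  have hΦ : ∀ j i g, (Φ ⟨(j, i), (QuotientGroup.mk g : K ⧸ Subgroup.zpowers (u j))⟩ : X)
      = a g (r j i) := fun j i g => rfl
  have hsurj : Function.Surjective Φ := by
    rintro ⟨x, hx⟩
    obtain ⟨g, j, i, h⟩ := cover x hx
    exact ⟨⟨(j, i), (QuotientGroup.mk g : K ⧸ Subgroup.zpowers (u j))⟩, Subtype.ext h⟩
  have hfin : ∀ ji : Fin 3 × Fin 5, Finite (K ⧸ Subgroup.zpowers (u ji.1)) := fun ji =>
    inferInstance
  have hSf : Finite S := inferInstance
  have hScard : Nat.card S = ∑ ji : Fin 3 × Fin 5, Nat.card (K ⧸ Subgroup.zpowers (u ji.1)) :=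
    Nat.card_sigma
  have hsum : ∑ ji : Fin 3 × Fin 5, (![42, 56, 168] : Fin 3 → ℕ) ji.1 = 1330 := by
    decide +kernel
  have hSle : Nat.card S ≤ 1330 := by
    rw [hScard, ← hsum]
    exact Finset.sum_le_sum fun ji _ => hle ji.1
  have hSge : 1330 ≤ Nat.card S := by
    rw [← hY]
    exact Nat.card_le_card_of_surjective Φ hsurj
  have hSeq : Nat.card S = Nat.card Y := by omega
  have hbij : Function.Bijective Φ := by
    have := Fintype.ofFinite S
    have := Fintype.ofFinite Y
    rw [Fintype.bijective_iff_surjective_and_card]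
    refine ⟨hsurj, ?_⟩
    rw [Nat.card_eq_fintype_card, Nat.card_eq_fintype_card] at hSeq
    exact hSeq
  have hceq : ∀ j, Nat.card (K ⧸ Subgroup.zpowers (u j)) = (![42, 56, 168] : Fin 3 → ℕ) j := by
    have h1 : ∑ ji : Fin 3 × Fin 5, Nat.card (K ⧸ Subgroup.zpowers (u ji.1)) =
        ∑ ji : Fin 3 × Fin 5, (![42, 56, 168] : Fin 3 → ℕ) ji.1 := by
      rw [← hScard, hsum]; omega
    rw [Finset.sum_eq_sum_iff_of_le (fun ji _ => hle ji.1)] at h1
    intro j
    exact h1 (j, 0) (Finset.mem_univ _)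
  have horder : ∀ j, orderOf (u j) = (![4, 3, 1] : Fin 3 → ℕ) j := by
    intro j
    have h1 := hcard j
    rw [hceq j] at h1
    fin_cases j <;> simp at h1 ⊢ <;> omega
  have key : ∀ j i g j' i', a g (r j i) = r j' i' → (j = j' ∧ i = i') := by
    intro j i g j' i' h
    have h1 : Φ ⟨(j, i), (QuotientGroup.mk g : K ⧸ Subgroup.zpowers (u j))⟩ =
        Φ ⟨(j', i'), (QuotientGroup.mk 1 : K ⧸ Subgroup.zpowers (u j'))⟩ := by
      ext1
      rw [hΦ, hΦ, h, map_one]; rfl
    have h2 := congrArg Sigma.fst (hbij.1 h1)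
    exact ⟨congrArg Prod.fst h2, congrArg Prod.snd h2⟩
  have stab : ∀ j i g, a g (r j i) = r j i ↔ g ∈ Subgroup.zpowers (u j) := by
    intro j i g
    refine ⟨fun h => ?_, hz j i g⟩
    have h1 : Φ ⟨(j, i), (QuotientGroup.mk g : K ⧸ Subgroup.zpowers (u j))⟩ =
        Φ ⟨(j, i), (QuotientGroup.mk 1 : K ⧸ Subgroup.zpowers (u j))⟩ := by
      ext1
      rw [hΦ, hΦ, h, map_one]; rfl
    have h2 := hbij.1 h1
    rw [Sigma.mk.injEq] at h2
    have h3 := eq_of_heq h2.2
    rw [QuotientGroup.eq] at h3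
    have h4 : g⁻¹ ∈ Subgroup.zpowers (u j) := by simpa using h3
    simpa using h4
  refine ⟨{ r4 := r 0, r3 := r 1, r1 := r 2, m4 := hr 0, m3 := hr 1, m1 := hr 2,
            s4 := fun i => ⟨u 0, by rw [horder]; rfl, stab 0 i⟩
            s3 := fun i => ⟨u 1, by rw [horder]; rfl, stab 1 i⟩
            s1 := ?_, cover := ?_, d44 := ?_, d33 := ?_, d11 := ?_, d43 := ?_, d41 := ?_,
            d31 := ?_ }⟩
  · intro i g h
    have h1 := (stab 2 i g).1 h
    have h2 : orderOf (u 2) = 1 := by rw [horder]; rfl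
    rw [orderOf_eq_one_iff] at h2
    rw [h2] at h1
    simpa using h1
  · intro x hx
    obtain ⟨g, j, i, h⟩ := cover x hx
    refine ⟨g, i, ?_⟩
    fin_cases j
    · exact Or.inl h
    · exact Or.inr (Or.inl h)
    · exact Or.inr (Or.inr h)
  · exact fun i j g h => (key _ _ _ _ _ h).2
  · exact fun i j g h => (key _ _ _ _ _ h).2
  · exact fun i j g h => (key _ _ _ _ _ h).2
  · intro i j g h
    exact absurd (key _ _ _ _ _ h).1 (by decide)
  · intro i j g h
    exact absurd (key _ _ _ _ _ h).1 (by decide)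
  · intro i j g h
    exact absurd (key _ _ _ _ _ h).1 (by decide)


/-- encode a vector -/
def enc (x y z : ℕ) : ℕ := (x % 11) * 121 + (y % 11) * 11 + z % 11

/-- decode a vector -/
def toV (v : ℕ) : V3 := ![((v / 121 : ℕ) : ZMod 11), ((v / 11 % 11 : ℕ) : ZMod 11),
  ((v % 11 : ℕ) : ZMod 11)]

lemma toV_enc (x y z : ℕ) : toV (enc x y z) = ![(x : ZMod 11), (y : ZMod 11), (z : ZMod 11)] := by
  have hx : (enc x y z) / 121 = x % 11 := by unfold enc; omega
  have hy : (enc x y z) / 11 % 11 = y % 11 := by unfold enc; omega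
  have hz : (enc x y z) % 11 = z % 11 := by unfold enc; omega
  rw [toV, hx, hy, hz]
  simp

lemma toV_zero : toV 0 = 0 := by
  ext i
  fin_cases i <;> simp [toV]

/-- every vector is encoded -/
lemma exists_toV (x : V3) : ∃ v < 1331, toV v = x := by
  refine ⟨enc (x 0).val (x 1).val (x 2).val, ?_, ?_⟩
  · unfold enc; omega
  · rw [toV_enc]
    ext i
    fin_cases i <;> simp

/-- multiplication by a matrix with entries `a, ..., i` on encoded vectors -/
def st (a b c d e f g h i v : ℕ) : ℕ :=
  enc (a * (v / 121) + b * (v / 11 % 11) + c * (v % 11))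
    (d * (v / 121) + e * (v / 11 % 11) + f * (v % 11))
    (g * (v / 121) + h * (v / 11 % 11) + i * (v % 11))

lemma toV_st (a b c d e f g h i v : ℕ) : toV (st a b c d e f g h i v) =
    (!![(a : ZMod 11), b, c; d, e, f; g, h, i] : Matrix (Fin 3) (Fin 3) (ZMod 11)) *ᵥ toV v := by
  rw [st, toV_enc, toV]
  ext j
  fin_cases j <;> simp [Matrix.mulVec, dotProduct, Fin.sum_univ_three]

lemma st_lt (a b c d e f g h i v : ℕ) : st a b c d e f g h i v < 1331 := by
  unfold st enc; omega

/-- a table of distances to the representatives and of the first generator on the way -/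
def tab (T v : ℕ) : ℕ := T / 64 ^ v % 64

/-- table for the natural action -/
def T₁ : ℕ := 0x1869145130a49434669571e59261850448c59075a78859179a31145549475054d24c41069449574c41441830c29441065a40e41d61679159839e58d21845940955c61921465649965235424c69241131448e34a40660645878531471041455420c35141250451245a58d44678d55451255449671a64e55871455541269640d34c55671a61631a59249135e55a75858865449231651441861e65449149450a30e51a25011434d31564d41968e71444a85078614530645578c49545435974958959141865c21061149845468c35128669d31c65935041551965959221d34e64979169051568455858c41044851c68c41049425048c44e68c34d58c69461e79069a61439661078e49179878a19821130661141e50c74879869668c51940c40d60a41039249849630859925149a61610d51148645451055d45849025d79535845251659e69424940c38e51435549465539555645641230c69539051d50865059841c61125819160a61830819e51265639935949920961559d38e59e51070c55440c40d49a41450855231e49675869429145435231168648c41a28451148c35041a31670d69861865029441a55431841561244c35051245451859568445279559884618a31e445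21431569855971039249854e79141971d50951c71035031160834d59925a40845055d39052238971430941459230d61644468058d79665541a69125920d74e31071464951841448d49645579649d64c61459649441865820961460544d68d69059055a31d35c65050831935025840c11879a49a71289030431229245c41459039550e61049c79c44d61231539950c45a34a45450c58065658d65965275451545469871021c50d49559968d55159225851022114915961155d49051558d59470849959645555274931c11438950a89041850d51864a41570d39c55231259961549650c49649661949451039240c50c34824458d49469150c58040c69a35569035875845139851c41049485821940550960551440831075050c48940e49272230c25141c35555141174c38958d65239959965225a65d51059821578945a61020961041975611e49544c61a49658e61875641139079135151631a29830029a71931061841435421861860860965410988c51441c38a40c49959d59239660969035069a58c61075255455059449435c34855871171451034e64d50d70841930945479839c49961051951269654d49854955244e69055531958d68c11245659450021862165415820944939d29855c71939654960e71d65939840a70960a59539d71075528929c39661c58a61874939c55959638a31848500071941800e49864564c01060048c39900561958048a28061670531648a61830064058541230c49230c492300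

/-- table for the dual action -/
def T₂ : ℕ := 0x1869144459249434669058859151d58468c65255a35461939231c59265159239e40d71241448c51849c41465d29441e65151658e49e68c55071440851441661550d51921070d55868935824c51a31051448e34a19046114615e31470c41479964d35125151250c45a44d28655655679879471651165549d59269559a59044845851569024d31065d55961069655840c69034c30d61a30849965449e69048a50e45025a10c34d39471449854e71e60a18660879131851249564e71165659051541050858d51825649411a51635130641435445549248c71c69860d31031061821d65849251559469d79029939445941471428c24e40452235560c69964d39251649541e41669a38c51160a85e18530819154d64c55439969d49951940d41138a78941025971834861a61159461630d68448659a39548865c69240e55041455a59655451048972238c31435651668850441875a49244d55449551479859441460d21045441878a44630660544941841935a40c21878c79841a79a49651131c48e39435055c65069231060d61949430a45834c4566864a231024e45270c35445051069559521465045930d79c74e51459965565945249059561668475469069e1a140a30515119148845255959651225c49a49e31668838d50d51045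044a41925951844d41841860939a41410a50c50941445648d51111268031575d38c54851059c55259235d51461e59455571639655024c71548c61635835d61961820921851851541969155061850959c70e31039835d71259255569949158944c38451a28949041e79670c49679a60965949e59231445934c29435245469144048d30c40c60d55675045435074c65c45460831041831075259885821464960521455871559e59679425055074c40831d61251039231230945a41044d71465131034955611141659a49a25058d54824d65231d51d38d71870e59579244d45a50a60c44045869865841045550865e69251a31948d51021861860915951449045d59530d49c30e71251432225041965239649c59544d60d70959221865074839541260c50c75240d51851565841851810859649051a50979a49039558c41a24435651149a31858029175945039041452121961015850915110946248c71038a40c35241060c58c61d69845161055865025a79e55559461640935941071135138c24e45650d71575539e65464869a49949535041d41d21854c31655249551869649924d68c31129645450021861461864860944974e55865865c39628961d29671539c59528961c75939661038a70955839d71941c61838939965575000c28a48559c01858a60048030561959600e48a01870564c59848c60e64000565049828029c31600541248c30c49248c300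

/-- the representatives (natural action) -/
def rt₁ : Fin 3 → Fin 5 → ℕ := ![![132, 264, 396, 528, 660], ![16, 32, 37, 53, 58], ![14, 28, 42, 45, 59]]

/-- the representatives (dual action) -/
def rt₂ : Fin 3 → Fin 5 → ℕ := ![![132, 264, 396, 528, 660], ![18, 25, 43, 50, 57], ![13, 26, 39, 52, 65]]

/-- the step towards a representative (natural action) -/
def st₁ (v : ℕ) : ℕ :=
  match tab T₁ v % 4 with
  | 0 => st 2 0 2 6 8 5 6 3 5 v
  | 1 => st 0 1 0 0 0 1 1 0 0 v
  | _ => st 0 10 0 10 0 0 0 0 10 v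

/-- the step towards a representative (dual action) -/
def st₂ (v : ℕ) : ℕ :=
  match tab T₂ v % 4 with
  | 0 => st 3 0 3 6 9 5 6 2 5 v
  | 1 => st 0 1 0 0 0 1 1 0 0 v
  | _ => st 0 10 0 10 0 0 0 0 10 v

lemma tab₁ : ∀ v < 1331, v = 0 ∨ tab T₁ (st₁ v) / 4 < tab T₁ v / 4 ∨ ∃ j i, rt₁ j i = v := by
  decide +kernel

lemma tab₂ : ∀ v < 1331, v = 0 ∨ tab T₂ (st₂ v) / 4 < tab T₂ v / 4 ∨ ∃ j i, rt₂ j i = v := by
  decide +kernel

lemma root_ne₁ : ∀ j i, toV (rt₁ j i) ≠ 0 := by decide +kernel
lemma root_ne₂ : ∀ j i, toV (rt₂ j i) ≠ 0 := by decide +kernel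

lemma fix₁ : ∀ i, ((NS ^ 2 * WS * NS : SL(3, ZMod 11)) : Matrix (Fin 3) (Fin 3) (ZMod 11)) *ᵥ
    toV (rt₁ 0 i) = toV (rt₁ 0 i) := by decide +kernel
lemma fix₁' : ∀ i, ((WS * NS : SL(3, ZMod 11)) : Matrix (Fin 3) (Fin 3) (ZMod 11)) *ᵥ
    toV (rt₁ 1 i) = toV (rt₁ 1 i) := by decide +kernel
lemma fix₂ : ∀ i, (((NS ^ 2 * WS * NS)⁻¹ : SL(3, ZMod 11)) :
    Matrix (Fin 3) (Fin 3) (ZMod 11))ᵀ *ᵥ toV (rt₂ 0 i) = toV (rt₂ 0 i) := by decide +kernel
lemma fix₂' : ∀ i, (((WS * NS)⁻¹ : SL(3, ZMod 11)) : Matrix (Fin 3) (Fin 3) (ZMod 11))ᵀ *ᵥ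
    toV (rt₂ 1 i) = toV (rt₂ 1 i) := by decide +kernel

lemma cover_of {K : Type} [Group K] (a : K →* Equiv.Perm V3) (h0 : ∀ g, a g 0 = 0) (T : ℕ)
    (s : ℕ → ℕ) (rt : Fin 3 → Fin 5 → ℕ) (hlt : ∀ v, s v < 1331)
    (hs : ∀ v, ∃ g, toV (s v) = a g (toV v))
    (htab : ∀ v < 1331, v = 0 ∨ tab T (s v) / 4 < tab T v / 4 ∨ ∃ j i, rt j i = v) (x : V3)
    (hx : x ≠ 0) : ∃ g j i, a g (toV (rt j i)) = x := by
  have key : ∀ m v, v < 1331 → tab T v / 4 ≤ m → toV v ≠ 0 →
      ∃ g j i, a g (toV (rt j i)) = toV v := by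
    intro m
    induction m with
    | zero =>
      intro v hv hm hne
      rcases htab v hv with h | h | ⟨j, i, h⟩
      · rw [h, toV_zero] at hne; exact absurd rfl hne
      · omega
      · exact ⟨1, j, i, by rw [h, map_one]; rfl⟩
    | succ m ih =>
      intro v hv hm hne
      rcases htab v hv with h | h | ⟨j, i, h⟩
      · rw [h, toV_zero] at hne; exact absurd rfl hne
      · obtain ⟨g, hg⟩ := hs v
        obtain ⟨g', j, i, h'⟩ := ih (s v) (hlt v) (by omega) (by
          rw [hg]
          intro h2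
          rw [← h0 g] at h2
          exact hne ((a g).injective h2))
        refine ⟨g⁻¹ * g', j, i, ?_⟩
        rw [map_mul, Equiv.Perm.mul_apply, h', hg, map_inv]
        exact (a g).symm_apply_apply _
      · exact ⟨1, j, i, by rw [h, map_one]; rfl⟩
  obtain ⟨v, hv, rfl⟩ := exists_toV x
  exact key _ v hv le_rfl hx

lemma card_Y : Nat.card {v : V3 | v ≠ 0} = 1330 := by
  have h : ({v : V3 | v ≠ 0} : Set V3) = ({0} : Set V3)ᶜ := by ext v; simp
  have h3 : Nat.card V3 = 1331 := by
    rw [Nat.card_fun, Nat.card_zmod, Nat.card_eq_fintype_card, Fintype.card_fin]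
    norm_num
  rw [Nat.card_coe_set_eq, h, Set.ncard_compl, Set.ncard_singleton, h3]

lemma od₁ {K : Type} [Group K] [Finite K] (hK : Nat.card K = 168) (ρ : K →* SL(3, ZMod 11))
    (n1 n2 d w : K) (hn : ρ n1 = NS) (hn2 : ρ n2 = NS ^ 2) (hd : ρ d = DS) (hw : ρ w = WS) :
    Nonempty (OD (stdAct.comp ρ) {v | v ≠ 0} (Fin 5)) := by
  have h0 : ∀ g, (stdAct.comp ρ) g 0 = 0 := fun g => by
    rw [MonoidHom.comp_apply, stdAct_apply, Matrix.mulVec_zero]
  have hu0 : ρ (n2 * w * n1) = NS ^ 2 * WS * NS := by rw [map_mul, map_mul, hn, hn2, hw]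
  have hu1 : ρ (w * n1) = WS * NS := by rw [map_mul, hn, hw]
  have := Fact.mk Nat.prime_three
  have := Fact.mk Nat.prime_two
  refine od_of (stdAct.comp ρ) _ ?_ hK card_Y (fun j i => toV (rt₁ j i)) root_ne₁
    ![n2 * w * n1, w * n1, 1] ?_ ?_ ?_
  · intro g x hx h
    rw [← h0 g] at h
    exact hx (((stdAct.comp ρ) g).injective h)
  · intro j i
    fin_cases j
    · change stdAct (ρ (n2 * w * n1)) (toV (rt₁ 0 i)) = toV (rt₁ 0 i)
      rw [hu0, stdAct_apply, fix₁]
    · change stdAct (ρ (w * n1)) (toV (rt₁ 1 i)) = toV (rt₁ 1 i)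
      rw [hu1, stdAct_apply, fix₁']
    · change (stdAct.comp ρ) 1 (toV (rt₁ 2 i)) = toV (rt₁ 2 i)
      rw [map_one]; rfl
  · intro j
    fin_cases j
    · change 4 ∣ orderOf (n2 * w * n1)
      have h : orderOf (ρ (n2 * w * n1)) = 2 ^ (1 + 1) :=
        orderOf_eq_prime_pow (by rw [hu0]; exact ord4.1) (by rw [hu0]; exact ord4.2)
      exact (by rw [h]; norm_num : 4 ∣ orderOf (ρ (n2 * w * n1))).trans (orderOf_map_dvd _ _)
    · change 3 ∣ orderOf (w * n1)
      have h : orderOf (ρ (w * n1)) = 3 :=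
        orderOf_eq_prime (by rw [hu1]; exact ord3.2) (by rw [hu1]; exact ord3.1)
      exact (by rw [h] : 3 ∣ orderOf (ρ (w * n1))).trans (orderOf_map_dvd _ _)
    · exact one_dvd _
  · intro x hx
    refine cover_of (stdAct.comp ρ) h0 T₁ st₁ rt₁ ?_ ?_ tab₁ x hx
    · intro v
      unfold st₁
      split <;> exact st_lt _ _ _ _ _ _ _ _ _ _
    · intro v
      unfold st₁
      split
      · refine ⟨n1, ?_⟩
        rw [toV_st, MonoidHom.comp_apply, stdAct_apply, hn]
        congr 1
      · refine ⟨d, ?_⟩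
        rw [toV_st, MonoidHom.comp_apply, stdAct_apply, hd]
        congr 1
      · refine ⟨w, ?_⟩
        rw [toV_st, MonoidHom.comp_apply, stdAct_apply, hw]
        congr 1

lemma NSi : ((NS⁻¹ : SL(3, ZMod 11)) : Matrix (Fin 3) (Fin 3) (ZMod 11))ᵀ =
    !![3,0,3;6,9,5;6,2,5] := by decide +kernel
lemma DSi : ((DS⁻¹ : SL(3, ZMod 11)) : Matrix (Fin 3) (Fin 3) (ZMod 11))ᵀ =
    !![0,1,0;0,0,1;1,0,0] := by decide +kernel
lemma WSi : ((WS⁻¹ : SL(3, ZMod 11)) : Matrix (Fin 3) (Fin 3) (ZMod 11))ᵀ =
    !![0,10,0;10,0,0;0,0,10] := by decide +kernel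

lemma od₂ {K : Type} [Group K] [Finite K] (hK : Nat.card K = 168) (ρ : K →* SL(3, ZMod 11))
    (n1 n2 d w : K) (hn : ρ n1 = NS) (hn2 : ρ n2 = NS ^ 2) (hd : ρ d = DS) (hw : ρ w = WS) :
    Nonempty (OD (dualAct.comp ρ) {v | v ≠ 0} (Fin 5)) := by
  have h0 : ∀ g, (dualAct.comp ρ) g 0 = 0 := fun g => by
    rw [MonoidHom.comp_apply, dualAct_apply, Matrix.mulVec_zero]
  have hu0 : ρ (n2 * w * n1) = NS ^ 2 * WS * NS := by rw [map_mul, map_mul, hn, hn2, hw]
  have hu1 : ρ (w * n1) = WS * NS := by rw [map_mul, hn, hw]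
  have := Fact.mk Nat.prime_three
  have := Fact.mk Nat.prime_two
  refine od_of (dualAct.comp ρ) _ ?_ hK card_Y (fun j i => toV (rt₂ j i)) root_ne₂
    ![n2 * w * n1, w * n1, 1] ?_ ?_ ?_
  · intro g x hx h
    rw [← h0 g] at h
    exact hx (((dualAct.comp ρ) g).injective h)
  · intro j i
    fin_cases j
    · change dualAct (ρ (n2 * w * n1)) (toV (rt₂ 0 i)) = toV (rt₂ 0 i)
      rw [hu0, dualAct_apply, fix₂]
    · change dualAct (ρ (w * n1)) (toV (rt₂ 1 i)) = toV (rt₂ 1 i)
      rw [hu1, dualAct_apply, fix₂']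
    · change (dualAct.comp ρ) 1 (toV (rt₂ 2 i)) = toV (rt₂ 2 i)
      rw [map_one]; rfl
  · intro j
    fin_cases j
    · change 4 ∣ orderOf (n2 * w * n1)
      have h : orderOf (ρ (n2 * w * n1)) = 2 ^ (1 + 1) :=
        orderOf_eq_prime_pow (by rw [hu0]; exact ord4.1) (by rw [hu0]; exact ord4.2)
      exact (by rw [h]; norm_num : 4 ∣ orderOf (ρ (n2 * w * n1))).trans (orderOf_map_dvd _ _)
    · change 3 ∣ orderOf (w * n1)
      have h : orderOf (ρ (w * n1)) = 3 :=
        orderOf_eq_prime (by rw [hu1]; exact ord3.2) (by rw [hu1]; exact ord3.1)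
      exact (by rw [h] : 3 ∣ orderOf (ρ (w * n1))).trans (orderOf_map_dvd _ _)
    · exact one_dvd _
  · intro x hx
    refine cover_of (dualAct.comp ρ) h0 T₂ st₂ rt₂ ?_ ?_ tab₂ x hx
    · intro v
      unfold st₂
      split <;> exact st_lt _ _ _ _ _ _ _ _ _ _
    · intro v
      unfold st₂
      split
      · refine ⟨n1, ?_⟩
        rw [toV_st, MonoidHom.comp_apply, dualAct_apply, hn, NSi]
        congr 1
      · refine ⟨d, ?_⟩
        rw [toV_st, MonoidHom.comp_apply, dualAct_apply, hd, DSi]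
        congr 1
      · refine ⟨w, ?_⟩
        rw [toV_st, MonoidHom.comp_apply, dualAct_apply, hw, WSi]
        congr 1

end ORB

/-- Klein's representation of `PSL(2,7)` over the field with 11 elements and its orbits on
vectors -/
theorem ORB : ∃ ρ : PSL(2, ZMod 7) →* SL(3, ZMod 11),
    Nonempty (OD (stdAct.comp ρ) {v | v ≠ 0} (Fin 5)) ∧
    Nonempty (OD (dualAct.comp ρ) {v | v ≠ 0} (Fin 5)) := by
  have := Fact.mk (by norm_num : Nat.Prime 7)
  obtain ⟨D⟩ := PSLB 7 (by norm_num)
  have hfin : Finite PSL(2, ZMod 7) := BN_finite D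
  have hcard : Nat.card PSL(2, ZMod 7) = 168 := by
    have h := BN_card (q := 7) (by norm_num) D
    omega
  have hu : ∀ a : (ZMod 7)ˣ, (a : ZMod 7) ≠ 0 := fun a => a.ne_zero
  obtain ⟨ρ, hn, hd, hw⟩ := LIFT D (fun x => ORB.NS ^ x.val)
    (fun a => ORB.DS ^ ORB.lk (a : ZMod 7)) ORB.WS (by simp) ORB.rel_hn
    (fun a b => by
      simp only [Units.val_mul]
      exact ORB.rel_hd a b (hu a) (hu b))
    (by simpa using ORB.rel_neg)
    (fun a x => ORB.rel_dn a x (hu a)) ORB.WS2
    (fun a => ORB.rel_wd a _ (Units.mul_inv a))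
    (fun a => ORB.rel_wnw a _ (Units.mul_inv a))
  have h1 : ρ (D.n 1) = ORB.NS := by rw [hn]; exact pow_one _
  have h2 : ρ (D.n 2) = ORB.NS ^ 2 := by rw [hn]; rfl
  have h3 : ρ (D.d ORB.u2) = ORB.DS := by rw [hd]; exact pow_one _
  exact ⟨ρ, ORB.od₁ hcard ρ _ _ _ _ h1 h2 h3 hw, ORB.od₂ hcard ρ _ _ _ _ h1 h2 h3 hw⟩

end CM
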